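import Pool.Agent.Helper91.IP.Defs

/-!
# IP-A1: positivity of the four and five point elements
-/

namespace Pool.Agent.Helper28.IP

open Finset Equiv Pool.Agent.Helper91.IP

variable {V : Type} [Fintype V] [DecidableEq V]

theorem cor_inv (f : Perm V → ℝ) (g : Perm V) : cor f g⁻¹ = cor f g := by
  unfold cor
  rw [← Equiv.sum_comp (Equiv.mulLeft g)]
  refine sum_congr rfl fun s _ => ?_
  simp only [Equiv.coe_mulLeft, inv_mul_cancel_left]
  rw [mul_comm]

theorem cor_swap_rev (f : Perm V → ℝ) (a b c d : V) :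
    cor f (swap c d * swap a b) = cor f (swap a b * swap c d) := by
  rw [← cor_inv f (swap a b * swap c d), mul_inv_rev, swap_inv, swap_inv]

theorem cor_one (f : Perm V → ℝ) : cor f 1 = nsq f := by
  unfold cor nsq
  refine sum_congr rfl fun s _ => ?_
  rw [one_mul]; ring

theorem sum_shift (f : Perm V → ℝ) (a b : Perm V) :
    ∑ s, f (a * s) * f (b * a * s) = cor f b := by
  unfold cor
  rw [← Equiv.sum_comp (Equiv.mulLeft a) (fun s => f s * f (b * s))]
  refine sum_congr rfl fun s _ => ?_
  simp only [Equiv.coe_mulLeft, mul_assoc]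

theorem key {H : Type} [Group H] [Fintype H] (φ : H →* Perm V) (f : Perm V → ℝ) (c : H → ℤ)
    (N : ℕ) (hN : 0 < N) (hc : ∀ k, ∑ g, c g * c (k * g) = N * c k) :
    0 ≤ ∑ g, (c g : ℝ) * cor f (φ g) := by
  have h1 : (N : ℝ) * ∑ g, (c g : ℝ) * cor f (φ g)
      = ∑ s, (∑ g, (c g : ℝ) * f (φ g * s)) ^ 2 := by
    have e1 : ∀ s, (∑ g, (c g : ℝ) * f (φ g * s)) ^ 2
        = ∑ g, ∑ k, ((c g : ℝ) * c (k * g)) * (f (φ g * s) * f (φ k * φ g * s)) := by
      intro s
      rw [sq, sum_mul_sum]
      refine sum_congr rfl fun g _ => ?_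
      rw [← Equiv.sum_comp (Equiv.mulRight g)]
      refine sum_congr rfl fun k _ => ?_
      simp only [Equiv.coe_mulRight, map_mul]
      ring
    have e2 : ∑ s, (∑ g, (c g : ℝ) * f (φ g * s)) ^ 2
        = ∑ g, ∑ k, ((c g : ℝ) * c (k * g)) * cor f (φ k) := by
      simp only [e1]
      rw [sum_comm]
      refine sum_congr rfl fun g _ => ?_
      rw [sum_comm]
      refine sum_congr rfl fun k _ => ?_
      rw [← mul_sum, sum_shift]
    rw [e2, sum_comm, mul_sum]
    refine sum_congr rfl fun k _ => ?_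
    rw [← sum_mul, ← mul_assoc]
    congr 1
    have := hc k
    have h2 : ((∑ g, c g * c (k * g) : ℤ) : ℝ) = ((N * c k : ℤ) : ℝ) := by rw [this]
    push_cast at h2
    rw [h2]
  have h2 : 0 ≤ (N : ℝ) * ∑ g, (c g : ℝ) * cor f (φ g) := by
    rw [h1]; positivity
  have hN' : (0 : ℝ) < N := by exact_mod_cast hN
  exact nonneg_of_mul_nonneg_right h2 hN'

/-- the twelve terms of the element of the quadruple `i, j, k, l` -/
def xl {n : ℕ} (m : ℤ) (i j k l : Fin n) : List (ℤ × Perm (Fin n)) :=
  [(2 * m, 1), (2 * m, swap i j * swap k l), (2 * m, swap i k * swap j l),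
   (2 * m, swap i l * swap j k),
   (-m, swap i j * swap j k), (-m, swap j k * swap i j),
   (-m, swap i j * swap j l), (-m, swap j l * swap i j),
   (-m, swap i k * swap k l), (-m, swap k l * swap i k),
   (-m, swap j k * swap k l), (-m, swap k l * swap j k)]

omit [Fintype V] in
theorem via_swap {n : ℕ} (e : Fin n ↪ V) (i j : Fin n) :
    Equiv.Perm.viaEmbeddingHom e (swap i j) = swap (e i) (e j) := by
  ext x
  by_cases hx : x ∈ Set.range e
  · obtain ⟨y, rfl⟩ := hx
    rw [Equiv.Perm.viaEmbeddingHom_apply, Equiv.Perm.viaEmbedding_apply]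
    rw [e.injective.map_swap]
  · rw [Equiv.Perm.viaEmbeddingHom_apply, Equiv.Perm.viaEmbedding_apply_of_notMem _ _ _ hx]
    rw [swap_apply_of_ne_of_ne]
    · rintro rfl; exact hx ⟨i, rfl⟩
    · rintro rfl; exact hx ⟨j, rfl⟩

theorem sum_xl {n : ℕ} (e : Fin n ↪ V) (f : Perm V → ℝ) (m : ℤ) (i j k l : Fin n) :
    ((xl m i j k l).map fun p => (p.1 : ℝ) * cor f (Equiv.Perm.viaEmbeddingHom e p.2)).sum
      = m * e4 f (e i) (e j) (e k) (e l) := by
  simp only [xl, List.map_cons, List.map_nil, List.sum_cons, List.sum_nil, map_mul, via_swap,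
    map_one, cor_one]
  rw [cor_swap_rev f (e i) (e j) (e j) (e k), cor_swap_rev f (e i) (e j) (e j) (e l),
    cor_swap_rev f (e i) (e k) (e k) (e l), cor_swap_rev f (e j) (e k) (e k) (e l)]
  unfold e4
  push_cast
  ring

theorem sum_list {H : Type} [Fintype H] [DecidableEq H] (L : List (ℤ × H)) (F : H → ℝ) :
    ∑ g, (((L.map fun p => if p.2 = g then p.1 else 0).sum : ℤ) : ℝ) * F g
      = (L.map fun p => (p.1 : ℝ) * F p.2).sum := by
  induction L with
  | nil => simp
  | cons p L ih =>
    simp only [List.map_cons, List.sum_cons, Int.cast_add, add_mul, sum_add_distrib, ih]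
    congr 1
    simp [Int.cast_ite, ite_mul]

/-! ### Four points -/

/-- the element of four points -/
def c4 (g : Perm (Fin 4)) : ℤ :=
  let m := (List.finRange 4).countP (fun i => decide (g i = i))
  if m = 4 then 2
  else if m = 1 then -1
  else if m = 0 then (if g (g 0) = 0 ∧ g (g 1) = 1 then 2 else 0)
  else 0

set_option maxRecDepth 100000 in
theorem c4_conv : ∀ k : Perm (Fin 4), ∑ g : Perm (Fin 4), c4 g * c4 (k * g) = 12 * c4 k := by
  decide +kernel

set_option maxRecDepth 100000 in
theorem c4_eq : ∀ g : Perm (Fin 4),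
    c4 g = ((xl 1 0 1 2 3).map fun p => if p.2 = g then p.1 else 0).sum := by
  decide +kernel

/-- IP-A1a -/
theorem e4_nonneg (f : Perm V → ℝ) {a b c d : V} (h : D4 a b c d) : 0 ≤ e4 f a b c d := by
  obtain ⟨h1, h2, h3, h4, h5, h6⟩ := h
  have hinj : Function.Injective ![a, b, c, d] := by
    intro x y hxy
    fin_cases x <;> fin_cases y <;> simp_all
  set e : Fin 4 ↪ V := ⟨![a, b, c, d], hinj⟩ with he
  have hk := key (Equiv.Perm.viaEmbeddingHom e) f c4 12 (by norm_num)
    (by intro k; exact_mod_cast c4_conv k)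
  simp only [c4_eq] at hk
  rw [sum_list, sum_xl] at hk
  simpa [he] using hk

/-! ### Five points -/

/-- digits in base eight -/
def dig (c i : ℕ) : ℕ := c / 8 ^ i % 8

/-- code of a permutation of five points -/
def code (g : Perm (Fin 5)) : ℕ :=
  (g 0 : ℕ) + 8 * (g 1 : ℕ) + 64 * (g 2 : ℕ) + 512 * (g 3 : ℕ) + 4096 * (g 4 : ℕ)

/-- composition of codes -/
def comp (k c : ℕ) : ℕ :=
  dig k (dig c 0) + 8 * dig k (dig c 1) + 64 * dig k (dig c 2) + 512 * dig k (dig c 3)
    + 4096 * dig k (dig c 4)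

theorem dig_code (g : Perm (Fin 5)) (i : Fin 5) : dig (code g) i = (g i : ℕ) := by
  have h0 := (g 0).isLt
  have h1 := (g 1).isLt
  have h2 := (g 2).isLt
  have h3 := (g 3).isLt
  have h4 := (g 4).isLt
  unfold dig code
  obtain rfl | rfl | rfl | rfl | rfl : i = 0 ∨ i = 1 ∨ i = 2 ∨ i = 3 ∨ i = 4 := by
    revert i; decide
  · change _ / 8 ^ 0 % 8 = _
    norm_num; omega
  · change _ / 8 ^ 1 % 8 = _
    norm_num; omega
  · change _ / 8 ^ 2 % 8 = _
    norm_num; omega
  · change _ / 8 ^ 3 % 8 = _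
    norm_num; omega
  · change _ / 8 ^ 4 % 8 = _
    norm_num; omega

theorem code_mul (k g : Perm (Fin 5)) : code (k * g) = comp (code k) (code g) := by
  have e0 := dig_code g 0
  have e1 := dig_code g 1
  have e2 := dig_code g 2
  have e3 := dig_code g 3
  have e4 := dig_code g 4
  have f0 := dig_code k (g 0)
  have f1 := dig_code k (g 1)
  have f2 := dig_code k (g 2)
  have f3 := dig_code k (g 3)
  have f4 := dig_code k (g 4)
  change dig (code g) 0 = _ at e0
  change dig (code g) 1 = _ at e1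
  change dig (code g) 2 = _ at e2
  change dig (code g) 3 = _ at e3
  change dig (code g) 4 = _ at e4
  unfold comp
  rw [e0, e1, e2, e3, e4, f0, f1, f2, f3, f4]
  rfl

theorem code_inj : Function.Injective code := by
  intro g h hgh
  ext i
  rw [← dig_code g i, ← dig_code h i, hgh]

/-- the codes of all permutations -/
def codes : List ℕ := [668, 675, 724, 738, 787, 794, 1116, 1123, 1228, 1249, 1291, 1305, 1620, 1634, 1676, 1697, 1802, 1809, 2131, 2138, 2187, 2201, 2250, 2257, 4252, 4259, 4308, 4322, 4371, 4378, 5148, 5155, 5316, 5344, 5379, 5400, 5652, 5666, 5764, 5792, 5890, 5904, 6163, 6170, 6275, 6296, 6338, 6352, 8284, 8291, 8396, 8417, 8459, 8473, 8732, 8739, 8900, 8928, 8963, 8984, 9740, 9761, 9796, 9824, 9985, 9992, 10251, 10265, 10307, 10328, 10433, 10440, 12372, 12386, 12428, 12449, 12554, 12561, 12820, 12834, 12932, 12960, 13058, 13072, 13324, 13345, 13380, 13408, 13569, 13576, 14346, 14353, 14402, 14416, 14465, 14472, 16467, 16474, 16523, 16537, 16586, 16593, 16915, 16922, 17027,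 17048, 17090, 17104, 17419, 17433, 17475, 17496, 17601, 17608, 17930, 17937, 17986, 18000, 18049, 18056]

set_option maxRecDepth 100000 in
theorem image_code : (univ : Finset (Perm (Fin 5))).image code = codes.toFinset := by
  decide +kernel

theorem codes_nodup : codes.Nodup := by decide +kernel

theorem sum_code (F : ℕ → ℤ) : ∑ g : Perm (Fin 5), F (code g) = (codes.map F).sum := by
  rw [← List.sum_toFinset F codes_nodup, ← image_code, sum_image (fun x _ y _ h => code_inj h)]

/-- indicator of a fixed point -/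
def fx (c i : ℕ) : ℕ := if dig c i = i then 1 else 0

/-- the element of five points, on codes -/
def Dn (c : ℕ) : ℤ :=
  let m := fx c 0 + fx c 1 + fx c 2 + fx c 3 + fx c 4
  if m = 5 then 6
  else if m = 1 then
    (if comp c c = 18056 then (if dig c 0 = 0 then -2 else 2) else 0)
  else if m = 2 then (if dig c 0 = 0 then 0 else -2)
  else 0

set_option maxRecDepth 100000 in
theorem Dn_conv : ∀ k ∈ codes, (codes.map fun c => Dn c * Dn (comp k c)).sum = 24 * Dn k := by
  decide +kernel

/-- the list of the element of five points -/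
def L5 : List (ℤ × Perm (Fin 5)) :=
  xl 1 0 1 2 3 ++ xl 1 0 1 2 4 ++ xl 1 0 1 3 4 ++ xl 1 0 2 3 4 ++ xl (-1) 1 2 3 4

/-- the same list with codes -/
def L5n : List (ℤ × ℕ) := L5.map fun p => (p.1, code p.2)

set_option maxRecDepth 100000 in
theorem Dn_eq : ∀ c ∈ codes, Dn c = (L5n.map fun p => if p.2 = c then p.1 else 0).sum := by
  decide +kernel

theorem code_mem (g : Perm (Fin 5)) : code g ∈ codes := by
  have h : code g ∈ (univ : Finset (Perm (Fin 5))).image code := mem_image_of_mem _ (mem_univ _)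
  rw [image_code] at h
  simpa using h

theorem Dcode_eq (g : Perm (Fin 5)) :
    Dn (code g) = (L5.map fun p => if p.2 = g then p.1 else 0).sum := by
  rw [Dn_eq _ (code_mem g), L5n, List.map_map]
  congr 1
  refine List.map_congr_left fun p _ => ?_
  simp only [Function.comp, code_inj.eq_iff]

/-- IP-A1b -/
theorem e4_five (f : Perm V → ℝ) {o a b c d : V} (h : D4 a b c d) (ha : o ≠ a) (hb : o ≠ b)
    (hc : o ≠ c) (hd : o ≠ d) :
    e4 f a b c d ≤ e4 f o a b c + e4 f o a b d + e4 f o a c d + e4 f o b c d := by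
  obtain ⟨h1, h2, h3, h4, h5, h6⟩ := h
  have hinj : Function.Injective ![o, a, b, c, d] := by
    intro x y hxy
    fin_cases x <;> fin_cases y <;> simp_all
  set e : Fin 5 ↪ V := ⟨![o, a, b, c, d], hinj⟩ with he
  have hk := key (Equiv.Perm.viaEmbeddingHom e) f (fun g => Dn (code g)) 24 (by norm_num)
    (by
      intro k
      have h1 := sum_code (fun c => Dn c * Dn (comp (code k) c))
      rw [Dn_conv _ (code_mem k)] at h1
      simp only [code_mul]
      exact_mod_cast h1)
  simp only [Dcode_eq] at hk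
  rw [sum_list] at hk
  simp only [L5, List.map_append, List.sum_append, sum_xl] at hk
  simp only [he, Function.Embedding.coeFn_mk, Matrix.cons_val] at hk
  push_cast at hk
  linarith

end Pool.Agent.Helper28.IP
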